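import Mathlib

/-!
# MP_57045c_lc: sequential OWA rules under which free-riding is never harmful

For `n` voters and weights `α 0 > 0`, `α 1, …, α (n - 1) ≥ 0` free-riding is never harmful if and
only if the weights are all equal, or `n = 2` and `α 1 ≤ α 0`, or `n = 3`, `α 0 > α 1 > α 2` and
`α 1 + α 2 > α 0`. So there are rules other than the utilitarian one (for `n = 2, 3`), and for
`n ≥ 4` there are none.

* Positive part: `neverHarmful_of_inv` reduces to an invariant of the pair of satisfaction vectors
  in the truthful run and in the run with free-riding.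
* Negative part: every vector of satisfactions can be reached with two-candidate issues, voters
  outside a window of consecutive positions are parked below and above it (`harmful_of_window`),
  and eight explicit runs with windows of size 2, 3, 4 are harmful.
-/

set_option autoImplicit false
set_option linter.unusedTactic false
set_option linter.unreachableTactic false
set_option linter.unnecessarySeqFocus false

namespace Pool.Agent.Results.MP_57045c_lc.FreeRidingOWA

open Finset

/-- An election with `n` voters. -/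
structure Election (n : ℕ) where
  /-- the number of issues -/
  k : ℕ
  /-- issue `i < k` has the candidates `0, 1, …, m i`, named in the tie-breaking order -/
  m : ℕ → ℕ
  /-- `ballot v i`: the candidates of issue `i` approved by voter `v` -/
  ballot : Fin n → ℕ → Finset ℕ
  ballot_le : ∀ v i, ∀ c ∈ ballot v i, c ≤ m i

variable {n : ℕ}

/-- Satisfaction of `v` on the issues `0, …, j - 1` when candidate `w i` wins issue `i`. -/
def Election.satUpTo (E : Election n) (w : ℕ → ℕ) (j : ℕ) (v : Fin n) : ℕ :=
  ((Finset.range j).filter (fun i => w i ∈ E.ballot v i)).card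

/-- Satisfaction of `v` with the outcome `w`. -/
def Election.sat (E : Election n) (w : ℕ → ℕ) (v : Fin n) : ℕ := E.satUpTo w E.k v

/-- `α 0 * x₍₀₎ + ⋯ + α (n-1) * x₍ₙ₋₁₎`, where `x₍₀₎ ≤ ⋯ ≤ x₍ₙ₋₁₎` is `x` sorted increasingly. -/
noncomputable def owa (α : ℕ → ℝ) (x : Fin n → ℕ) : ℝ :=
  ∑ j : Fin n, α j * (x (Tuple.sort x j) : ℝ)

/-- The score of candidate `c` on issue `i` when the issues before `i` are decided by `w`. -/
noncomputable def score (α : ℕ → ℝ) (E : Election n) (w : ℕ → ℕ) (i c : ℕ) : ℝ :=
  owa α (fun v => E.satUpTo w i v + if c ∈ E.ballot v i then 1 else 0)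

/-- `w` is the outcome of the sequential `α`-OWA rule: on each issue `w i` is the first candidate
of maximal score. -/
def IsOutcome (α : ℕ → ℝ) (E : Election n) (w : ℕ → ℕ) : Prop :=
  ∀ i < E.k, w i ≤ E.m i ∧ ∀ c ≤ E.m i, score α E w i c ≤ score α E w i (w i) ∧
    (c < w i → score α E w i c < score α E w i (w i))

/-- `E'` differs from `E` only in the ballot of `v` on issue `i`. -/
def DiffersOnlyAt (E E' : Election n) (v : Fin n) (i : ℕ) : Prop :=
  E'.k = E.k ∧ (∀ j < E.k, E'.m j = E.m j) ∧
    ∀ u, ∀ j < E.k, (u ≠ v ∨ j ≠ i) → E'.ballot u j = E.ballot u j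

/-- `w`, `w'` are the outcomes of `E`, `E'`, and `v` free-rides on issue `i` via `E'`. -/
def FreeRides (α : ℕ → ℝ) (E E' : Election n) (w w' : ℕ → ℕ) (v : Fin n) (i : ℕ) : Prop :=
  i < E.k ∧ DiffersOnlyAt E E' v i ∧ IsOutcome α E w ∧ IsOutcome α E' w' ∧
    w i ∈ E.ballot v i ∧ w i ∉ E'.ballot v i ∧ w' i = w i

/-- Free-riding is never harmful for `n` voters and the weights `α 0, …, α (n - 1)`. -/
def NeverHarmful (n : ℕ) (α : ℕ → ℝ) : Prop :=
  ∀ (E E' : Election n) (w w' : ℕ → ℕ) (v : Fin n) (i : ℕ),
    FreeRides α E E' w w' v i → E.sat w v ≤ E.sat w' v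

/-- Free-riding is harmful in some election with `n` voters and two candidates per issue. -/
def HarmfulTwo (n : ℕ) (α : ℕ → ℝ) : Prop :=
  ∃ (E E' : Election n) (w w' : ℕ → ℕ) (v : Fin n) (i : ℕ),
    FreeRides α E E' w w' v i ∧ E.sat w' v < E.sat w v ∧ ∀ j, E.m j = 1

/-- The condition on the weights `α 0, …, α (n - 1)`. -/
def Cond (n : ℕ) (α : ℕ → ℝ) : Prop :=
  (∀ j < n, α j = α 0) ∨ (n = 2 ∧ α 1 ≤ α 0) ∨
    (n = 3 ∧ α 1 < α 0 ∧ α 2 < α 1 ∧ α 0 < α 1 + α 2)

/-! ### The OWA functional -/

theorem owa_of_perm (α : ℕ → ℝ) (x : Fin n → ℕ) (σ : Equiv.Perm (Fin n))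
    (h : Monotone (x ∘ σ)) : owa α x = ∑ j : Fin n, α j * (x (σ j) : ℝ) := by
  have h1 := Tuple.comp_sort_eq_comp_iff_monotone.2 h
  unfold owa
  refine Finset.sum_congr rfl fun j _ => ?_
  have h2 := congrFun h1 j
  simp only [Function.comp] at h2
  rw [h2]

theorem owa_eval (α : ℕ → ℝ) (x y : Fin n → ℕ) (h : ∃ σ : Equiv.Perm (Fin n), ∀ j, x (σ j) = y j)
    (hy : Monotone y) : owa α x = ∑ j : Fin n, α j * (y j : ℝ) := by
  obtain ⟨σ, hσ⟩ := h
  have h1 : x ∘ σ = y := funext hσ
  rw [owa_of_perm α x σ (by rw [h1]; exact hy)]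
  refine Finset.sum_congr rfl fun j _ => ?_
  rw [hσ j]

/-- The number of coordinates larger than `t`. -/
def cnt (x : Fin n → ℕ) (t : ℕ) : ℕ := (univ.filter (fun v => t < x v)).card

theorem cnt_le (x : Fin n → ℕ) (t : ℕ) : cnt x t ≤ n := by
  unfold cnt
  calc _ ≤ (univ : Finset (Fin n)).card := Finset.card_filter_le _ _
    _ = n := by simp

theorem cnt_perm (x : Fin n → ℕ) (σ : Equiv.Perm (Fin n)) (t : ℕ) :
    cnt (x ∘ σ) t = cnt x t := by
  unfold cnt
  refine Finset.card_bij (fun v _ => σ v) ?_ ?_ ?_
  · intro v hv; simpa using hv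
  · intro a _ b _ h; exact σ.injective h
  · intro b hb
    exact ⟨σ.symm b, by simpa using hb, by simp⟩

theorem lt_iff_cnt (y : Fin n → ℕ) (hy : Monotone y) (t : ℕ) (j : Fin n) :
    t < y j ↔ n - cnt y t ≤ (j : ℕ) := by
  constructor
  · intro h
    have h1 : (univ.filter (fun v : Fin n => j ≤ v)) ⊆ univ.filter (fun v => t < y v) := by
      intro v hv
      simp only [Finset.mem_filter, Finset.mem_univ, true_and] at hv ⊢
      exact lt_of_lt_of_le h (hy hv)
    have h2 := Finset.card_le_card h1
    have h3 : (univ.filter (fun v : Fin n => j ≤ v)).card = n - j := by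
      have : (univ.filter (fun v : Fin n => j ≤ v)) = Finset.Ici j := by ext; simp
      rw [this, Fin.card_Ici]
    unfold cnt
    omega
  · intro h
    by_contra h0
    have h1 : (univ.filter (fun v => t < y v)) ⊆ (univ.filter (fun v : Fin n => j < v)) := by
      intro v hv
      simp only [Finset.mem_filter, Finset.mem_univ, true_and] at hv ⊢
      by_contra h4
      exact h0 (lt_of_lt_of_le hv (hy (not_lt.1 h4)))
    have h2 := Finset.card_le_card h1
    have h3 : (univ.filter (fun v : Fin n => j < v)).card = n - 1 - j := by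
      have : (univ.filter (fun v : Fin n => j < v)) = Finset.Ioi j := by ext; simp
      rw [this, Fin.card_Ioi]
    have := j.2
    unfold cnt at h
    omega

/-- The layer formula. -/
theorem owa_layer (α : ℕ → ℝ) (x : Fin n → ℕ) (T : ℕ) (hT : ∀ v, x v ≤ T) :
    owa α x = ∑ t ∈ range T, ∑ j ∈ Ico (n - cnt x t) n, α j := by
  set y := x ∘ Tuple.sort x with hy
  have hmono : Monotone y := Tuple.monotone_sort x
  have h1 : ∀ j : Fin n, (y j : ℝ) = ∑ t ∈ range T, if n - cnt x t ≤ (j : ℕ) then (1 : ℝ) else 0 := by
    intro j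
    have h2 : ∀ t, (n - cnt x t ≤ (j : ℕ)) ↔ t < y j := by
      intro t
      rw [lt_iff_cnt y hmono t j, hy, cnt_perm]
    simp only [h2]
    rw [Finset.sum_boole]
    congr 1
    have h3 : (range T).filter (fun t => t < y j) = range (y j) := by
      ext t
      simp only [Finset.mem_filter, Finset.mem_range]
      have := hT (Tuple.sort x j)
      have h4 : y j = x (Tuple.sort x j) := rfl
      omega
    rw [h3, Finset.card_range]
  unfold owa
  calc ∑ j : Fin n, α j * (x (Tuple.sort x j) : ℝ)
      = ∑ j : Fin n, α j * (y j : ℝ) := rfl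
    _ = ∑ j : Fin n, ∑ t ∈ range T, (if n - cnt x t ≤ (j : ℕ) then α j else 0) := by
        refine Finset.sum_congr rfl fun j _ => ?_
        rw [h1 j, Finset.mul_sum]
        refine Finset.sum_congr rfl fun t _ => ?_
        split_ifs <;> simp
    _ = ∑ t ∈ range T, ∑ j : Fin n, (if n - cnt x t ≤ (j : ℕ) then α j else 0) :=
        Finset.sum_comm
    _ = _ := by
        refine Finset.sum_congr rfl fun t _ => ?_
        rw [Fin.sum_univ_eq_sum_range (fun j => if n - cnt x t ≤ j then α j else 0) n,
          ← Finset.sum_filter]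
        refine Finset.sum_congr ?_ fun _ _ => rfl
        ext j
        simp only [Finset.mem_filter, Finset.mem_range, Finset.mem_Ico]
        omega

theorem owa_mono (α : ℕ → ℝ) (hα : ∀ j < n, 0 ≤ α j) (x y : Fin n → ℕ) (h : ∀ v, x v ≤ y v) :
    owa α x ≤ owa α y := by
  obtain ⟨T, hT⟩ : ∃ T, ∀ v, y v ≤ T :=
    ⟨∑ v, y v, fun v => Finset.single_le_sum (f := y) (fun _ _ => Nat.zero_le _) (Finset.mem_univ v)⟩
  rw [owa_layer α x T fun v => (h v).trans (hT v), owa_layer α y T hT]
  refine Finset.sum_le_sum fun t _ => ?_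
  refine Finset.sum_le_sum_of_subset_of_nonneg ?_ ?_
  · have : cnt x t ≤ cnt y t := by
      unfold cnt
      refine Finset.card_le_card fun v hv => ?_
      simp only [Finset.mem_filter, Finset.mem_univ, true_and] at hv ⊢
      exact lt_of_lt_of_le hv (h v)
    intro j hj
    simp only [Finset.mem_Ico] at hj ⊢
    omega
  · intro j hj _
    simp only [Finset.mem_Ico] at hj
    exact hα j hj.2

/-- Raising one coordinate. -/
theorem owa_add_single (α : ℕ → ℝ) (x y : Fin n → ℕ) (u : Fin n)
    (hu : y u = x u + 1) (hv : ∀ v, v ≠ u → y v = x v) :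
    owa α y = owa α x + α (n - 1 - cnt x (x u)) := by
  obtain ⟨T, hT⟩ : ∃ T, ∀ v, y v ≤ T :=
    ⟨∑ v, y v, fun v => Finset.single_le_sum (f := y) (fun _ _ => Nat.zero_le _) (Finset.mem_univ v)⟩
  have hxy : ∀ v, x v ≤ y v := by
    intro v
    by_cases h : v = u
    · subst h; omega
    · rw [hv v h]
  rw [owa_layer α x T fun v => (hxy v).trans (hT v), owa_layer α y T hT]
  have hne : ∀ t, t ≠ x u → cnt y t = cnt x t := by
    intro t ht
    unfold cnt
    congr 1
    ext v
    simp only [Finset.mem_filter, Finset.mem_univ, true_and]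
    by_cases h : v = u
    · subst h; omega
    · rw [hv v h]
  have heq : cnt y (x u) = cnt x (x u) + 1 := by
    unfold cnt
    have : (univ.filter (fun v => x u < y v)) = insert u (univ.filter (fun v => x u < x v)) := by
      ext v
      simp only [Finset.mem_filter, Finset.mem_univ, true_and, Finset.mem_insert]
      by_cases h : v = u
      · subst h; simp; omega
      · rw [hv v h]; simp [h]
    rw [this, Finset.card_insert_of_notMem (by simp)]
  have hmem : x u ∈ range T := by
    have := hT u
    simp only [Finset.mem_range]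
    omega
  have hlt : cnt x (x u) + 1 ≤ n := heq ▸ cnt_le y (x u)
  rw [← Finset.add_sum_erase _ _ hmem, ← Finset.add_sum_erase (range T) _ hmem, heq]
  have h1 : ∑ t ∈ (range T).erase (x u), ∑ j ∈ Ico (n - cnt y t) n, α j
      = ∑ t ∈ (range T).erase (x u), ∑ j ∈ Ico (n - cnt x t) n, α j := by
    refine Finset.sum_congr rfl fun t ht => ?_
    rw [hne t (Finset.ne_of_mem_erase ht)]
  rw [h1]
  have h2 : ∑ j ∈ Ico (n - (cnt x (x u) + 1)) n, α j
      = α (n - 1 - cnt x (x u)) + ∑ j ∈ Ico (n - cnt x (x u)) n, α j := by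
    have h3 : n - (cnt x (x u) + 1) = n - 1 - cnt x (x u) := by omega
    have h4 : n - cnt x (x u) = (n - 1 - cnt x (x u)) + 1 := by omega
    rw [h3, h4, Finset.sum_eq_sum_Ico_succ_bot (by omega)]
  rw [h2]
  ring


/-! ### Outcomes -/

theorem satUpTo_succ (E : Election n) (w : ℕ → ℕ) (j : ℕ) (v : Fin n) :
    E.satUpTo w (j + 1) v = E.satUpTo w j v + if w j ∈ E.ballot v j then 1 else 0 := by
  unfold Election.satUpTo
  rw [Finset.range_add_one, Finset.filter_insert]
  split_ifs with h
  · rw [Finset.card_insert_of_notMem (by simp)]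
  · rfl

theorem satUpTo_zero (E : Election n) (w : ℕ → ℕ) (v : Fin n) : E.satUpTo w 0 v = 0 := by
  simp [Election.satUpTo]

/-- Before the changed issue both outcomes agree. -/
theorem agree {α : ℕ → ℝ} {E E' : Election n} {w w' : ℕ → ℕ} {v : Fin n} {i : ℕ}
    (h : FreeRides α E E' w w' v i) :
    ∀ j, j ≤ i → (∀ u, E'.satUpTo w' j u = E.satUpTo w j u) ∧ (∀ j' < j, w' j' = w j') := by
  obtain ⟨hi, ⟨hk, hm, hb⟩, hw, hw', -, -, -⟩ := h
  intro j
  induction j with
  | zero => exact fun _ => ⟨fun u => by rw [satUpTo_zero, satUpTo_zero], fun j' hj' => by omega⟩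
  | succ j ih =>
    intro hj
    obtain ⟨h1, h2⟩ := ih (by omega)
    have hjk : j < E.k := by omega
    have hbj : ∀ u, E'.ballot u j = E.ballot u j := fun u => hb u j hjk (Or.inr (by omega))
    have hs : ∀ c, score α E' w' j c = score α E w j c := by
      intro c
      unfold score
      congr 1
      funext u
      rw [h1 u, hbj u]
    have hwj : w' j = w j := by
      obtain ⟨a1, a2⟩ := hw j hjk
      obtain ⟨b1, b2⟩ := hw' j (by omega)
      rw [hm j hjk] at b1 b2
      obtain ⟨c1, c2⟩ := a2 (w' j) b1
      obtain ⟨d1, d2⟩ := b2 (w j) a1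
      simp only [hs] at d1 d2
      rcases lt_trichotomy (w' j) (w j) with h | h | h
      · exact absurd (c2 h) (not_lt.2 d1)
      · exact h
      · exact absurd (d2 h) (not_lt.2 c1)
    refine ⟨fun u => ?_, fun j' hj' => ?_⟩
    · rw [satUpTo_succ, satUpTo_succ, h1 u, hbj u, hwj]
    · rcases Nat.lt_succ_iff_lt_or_eq.1 hj' with h | h
      · exact h2 j' h
      · rw [h, hwj]

/-- The approvals of candidate `c` on issue `j`. -/
def ind (E : Election n) (j c : ℕ) : Fin n → ℕ := fun u => if c ∈ E.ballot u j then 1 else 0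

theorem neverHarmful_of_inv (α : ℕ → ℝ) (Inv : (Fin n → ℕ) → (Fin n → ℕ) → Prop)
    (h0 : ∀ (s p : Fin n → ℕ) (v : Fin n), s v = p v + 1 → (∀ u, u ≠ v → s u = p u) → Inv s p)
    (h1 : ∀ s p S P : Fin n → ℕ, Inv s p → (∀ u, S u ≤ 1) → (∀ u, P u ≤ 1) →
      (S = P ∨ (owa α (s + P) ≤ owa α (s + S) ∧ owa α (p + S) ≤ owa α (p + P) ∧
        (owa α (s + P) < owa α (s + S) ∨ owa α (p + S) < owa α (p + P)))) →
      Inv (s + S) (p + P))
    (h2 : ∀ s p v, Inv s p → s v ≤ p v + 1) : NeverHarmful n α := by
  intro E E' w w' v i h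
  have hag := agree h
  obtain ⟨hi, ⟨hk, hm, hb⟩, hw, hw', hin, hnin, hwi⟩ := h
  have key : ∀ j, i < j → j ≤ E.k → Inv (E.satUpTo w j) (E'.satUpTo w' j) ∧
      E.satUpTo w' j v = E'.satUpTo w' j v + 1 := by
    intro j
    induction j with
    | zero => intro hj; omega
    | succ j ih =>
      intro hj hjk
      rcases Nat.lt_succ_iff_lt_or_eq.1 hj with hlt | heq
      · obtain ⟨ih1, ih2⟩ := ih hlt (by omega)
        have hjk' : j < E.k := by omega
        have hbj : ∀ u, E'.ballot u j = E.ballot u j := fun u => hb u j hjk' (Or.inr (by omega))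
        constructor
        · have e1 : E.satUpTo w (j + 1) = E.satUpTo w j + ind E j (w j) := by
            funext u
            rw [satUpTo_succ]
            rfl
          have e2 : E'.satUpTo w' (j + 1) = E'.satUpTo w' j + ind E j (w' j) := by
            funext u
            rw [satUpTo_succ, hbj u]
            rfl
          rw [e1, e2]
          refine h1 _ _ _ _ ih1 ?_ ?_ ?_
          · intro u; unfold ind; split_ifs <;> omega
          · intro u; unfold ind; split_ifs <;> omega
          · by_cases hww : w j = w' j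
            · left; rw [hww]
            · right
              have s1 : ∀ c, score α E w j c = owa α (E.satUpTo w j + ind E j c) := by
                intro c; rfl
              have s2 : ∀ c, score α E' w' j c = owa α (E'.satUpTo w' j + ind E j c) := by
                intro c
                unfold score
                congr 1
                funext u
                rw [hbj u]
                rfl
              obtain ⟨a1, a2⟩ := hw j hjk'
              obtain ⟨b1, b2⟩ := hw' j (by omega)
              rw [hm j hjk'] at b1 b2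
              obtain ⟨c1, c2⟩ := a2 (w' j) b1
              obtain ⟨d1, d2⟩ := b2 (w j) a1
              rw [s1, s1] at c1 c2
              rw [s2, s2] at d1 d2
              refine ⟨c1, d1, ?_⟩
              rcases lt_or_gt_of_ne hww with h | h
              · exact Or.inr (d2 h)
              · exact Or.inl (c2 h)
        · rw [satUpTo_succ, satUpTo_succ, ih2, hbj v]
          omega
      · subst heq
        obtain ⟨g1, g2⟩ := hag i le_rfl
        constructor
        · refine h0 _ _ v ?_ ?_
          · rw [satUpTo_succ, satUpTo_succ, g1 v, if_pos hin, hwi, if_neg hnin]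
          · intro u hu
            rw [satUpTo_succ, satUpTo_succ, g1 u, hwi, hb u i hi (Or.inl hu)]
        · rw [satUpTo_succ, satUpTo_succ, hwi, if_pos hin, if_neg hnin, g1 v]
          have : E.satUpTo w' i v = E.satUpTo w i v := by
            unfold Election.satUpTo
            congr 1
            refine Finset.filter_congr fun j hj => ?_
            rw [g2 j (Finset.mem_range.1 hj)]
          omega
  obtain ⟨k1, k2⟩ := key E.k hi le_rfl
  have := h2 _ _ v k1
  unfold Election.sat
  rw [← hk] at *
  omega

/-! ### The positive part -/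

theorem owa_const (α : ℕ → ℝ) (hα : ∀ j < n, α j = α 0) (x : Fin n → ℕ) :
    owa α x = α 0 * ((∑ v, x v : ℕ) : ℝ) := by
  unfold owa
  push_cast
  rw [Finset.mul_sum]
  have : ∀ j : Fin n, α j * (x (Tuple.sort x j) : ℝ) = α 0 * (x (Tuple.sort x j) : ℝ) := by
    intro j; rw [hα j j.2]
  rw [Finset.sum_congr rfl fun j _ => this j]
  exact Equiv.sum_comp (Tuple.sort x) (fun j => α 0 * (x j : ℝ))

theorem pos_const (α : ℕ → ℝ) (h0 : 0 < α 0) (hα : ∀ j < n, α j = α 0) : NeverHarmful n α := by
  refine neverHarmful_of_inv α (fun s p => ∃ v, s v = p v + 1 ∧ ∀ u, u ≠ v → s u = p u) ?_ ?_ ?_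
  · intro s p v hv hu
    exact ⟨v, hv, hu⟩
  · rintro s p S P ⟨v, hv, hu⟩ - - (h | ⟨a, b, c⟩)
    · subst h
      exact ⟨v, by simp [hv]; omega, fun u hne => by simp [hu u hne]⟩
    · exfalso
      simp only [owa_const α hα, Pi.add_apply, Finset.sum_add_distrib, Nat.cast_add] at a b c
      rcases c with c | c <;> nlinarith
  · rintro s p v ⟨b, hv, hu⟩
    by_cases h : v = b
    · subst h; omega
    · have := hu v h; omega

theorem owa_two (α : ℕ → ℝ) (x : Fin 2 → ℕ) :
    owa α x = α 1 * ((x 0 + x 1 : ℕ) : ℝ) + (α 0 - α 1) * ((min (x 0) (x 1) : ℕ) : ℝ) := by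
  rcases le_total (x 0) (x 1) with h | h
  · rw [owa_eval α x x ⟨Equiv.refl _, fun _ => rfl⟩ (by
      intro i j hij
      fin_cases i <;> fin_cases j <;> simp_all)]
    rw [Fin.sum_univ_two, min_eq_left h]
    push_cast
    simp
    ring
  · rw [owa_eval α x ![x 1, x 0] ⟨Equiv.swap 0 1, fun j => by fin_cases j <;> simp⟩ (by
      intro i j hij
      fin_cases i <;> fin_cases j <;> simp_all)]
    rw [Fin.sum_univ_two, min_eq_right h]
    push_cast
    simp
    ring

theorem pos_two (α : ℕ → ℝ) (h10 : α 1 ≤ α 0) : NeverHarmful 2 α := by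
  refine neverHarmful_of_inv α (fun s p => ∀ u, p u ≤ s u ∧ s u ≤ p u + 1) ?_ ?_ ?_
  · intro s p v hv hu u
    by_cases h : u = v
    · subst h; omega
    · rw [hu u h]; omega
  · rintro s p S P hI hS hP (h | ⟨a, b, c⟩)
    · subst h
      intro u
      have := hI u
      simp only [Pi.add_apply]
      omega
    · simp only [owa_two, Pi.add_apply] at a b c
      have i0 := hI 0
      have i1 := hI 1
      have S0 := hS 0
      have S1 := hS 1
      have P0 := hP 0
      have P1 := hP 1
      have key : min (s 0 + P 0) (s 1 + P 1) + min (p 0 + S 0) (p 1 + S 1)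
          < min (s 0 + S 0) (s 1 + S 1) + min (p 0 + P 0) (p 1 + P 1) := by
        by_contra hcon
        rw [not_lt] at hcon
        have hcon' : ((min (s 0 + S 0) (s 1 + S 1) + min (p 0 + P 0) (p 1 + P 1) : ℕ) : ℝ)
          ≤ ((min (s 0 + P 0) (s 1 + P 1) + min (p 0 + S 0) (p 1 + S 1) : ℕ) : ℝ) := by
          exact_mod_cast hcon
        rw [Nat.cast_add, Nat.cast_add] at hcon'
        have hβ : 0 ≤ α 0 - α 1 := by linarith
        have h3 := mul_le_mul_of_nonneg_left hcon' hβ
        rw [mul_add, mul_add] at h3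
        simp only [Nat.cast_add, mul_add] at a b c h3
        rcases c with c | c <;> linarith
      intro u
      fin_cases u
      · simp only [Pi.add_apply, Fin.zero_eta, Fin.isValue]
        omega
      · simp only [Pi.add_apply, Fin.mk_one, Fin.isValue]
        omega
  · rintro s p v h
    exact (h v).2


/-- The smallest of three numbers. -/
def mA (x : Fin 3 → ℕ) : ℕ := min (min (x 0) (x 1)) (x 2)

/-- The smallest sum of two of three numbers. -/
def mB (x : Fin 3 → ℕ) : ℕ := min (min (x 0 + x 1) (x 0 + x 2)) (x 1 + x 2)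

theorem owa_three (α : ℕ → ℝ) (x : Fin 3 → ℕ) :
    owa α x = α 2 * ((x 0 + x 1 + x 2 : ℕ) : ℝ) + (α 1 - α 2) * (mB x : ℝ)
      + (α 0 - α 1) * (mA x : ℝ) := by
  have hmono := Tuple.monotone_sort x
  set σ := Tuple.sort x with hσ
  have h01 : x (σ 0) ≤ x (σ 1) := hmono (by decide)
  have h12 : x (σ 1) ≤ x (σ 2) := hmono (by decide)
  have n01 : σ 0 ≠ σ 1 := fun h => by simpa using σ.injective h
  have n02 : σ 0 ≠ σ 2 := fun h => by simpa using σ.injective h
  have n12 : σ 1 ≠ σ 2 := fun h => by simpa using σ.injective h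
  have key : mA x = x (σ 0) ∧ mB x = x (σ 0) + x (σ 1) ∧
      x 0 + x 1 + x 2 = x (σ 0) + x (σ 1) + x (σ 2) := by
    unfold mA mB
    generalize σ 0 = i at *
    generalize σ 1 = j at *
    generalize σ 2 = k at *
    fin_cases i <;> fin_cases j <;> fin_cases k <;> simp_all <;> omega
  obtain ⟨k1, k2, k3⟩ := key
  unfold owa
  rw [k1, k2, k3, Fin.sum_univ_three, ← hσ]
  push_cast
  simp only [Fin.isValue, Fin.coe_ofNat_eq_mod, Nat.zero_mod, Nat.one_mod, Nat.reduceMod]
  ring

theorem size3 (α : ℕ → ℝ) (h1 : α 1 < α 0) (h2 : α 2 < α 1) (h3 : α 0 < α 1 + α 2)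
    (x S P : Fin 3 → ℕ) (hS : ∀ u, S u ≤ 1) (hP : ∀ u, P u ≤ 1)
    (h : P 0 + P 1 + P 2 < S 0 + S 1 + S 2) : owa α (x + P) < owa α (x + S) := by
  rw [owa_three, owa_three]
  have hB : mB (x + P) ≤ mB (x + S) := by
    have S0 := hS 0
    have S1 := hS 1
    have S2 := hS 2
    have P0 := hP 0
    have P1 := hP 1
    have P2 := hP 2
    simp only [mB, Pi.add_apply]
    omega
  have hA : mA (x + P) ≤ mA (x + S) + 1 := by
    have S0 := hS 0
    have S1 := hS 1
    have S2 := hS 2
    have P0 := hP 0
    have P1 := hP 1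
    have P2 := hP 2
    simp only [mA, Pi.add_apply]
    omega
  have hC : (x + P) 0 + (x + P) 1 + (x + P) 2 + 1 ≤ (x + S) 0 + (x + S) 1 + (x + S) 2 := by
    simp only [Pi.add_apply]
    omega
  have hB' : (mB (x + P) : ℝ) ≤ mB (x + S) := by exact_mod_cast hB
  have hA' : (mA (x + P) : ℝ) ≤ mA (x + S) + 1 := by exact_mod_cast hA
  have hC' : (((x + P) 0 + (x + P) 1 + (x + P) 2 : ℕ) : ℝ) + 1
      ≤ (((x + S) 0 + (x + S) 1 + (x + S) 2 : ℕ) : ℝ) := by exact_mod_cast hC
  have e1 := mul_le_mul_of_nonneg_left hB' (by linarith : (0 : ℝ) ≤ α 1 - α 2)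
  have e2 := mul_le_mul_of_nonneg_left hA' (by linarith : (0 : ℝ) ≤ α 0 - α 1)
  have e3 := mul_le_mul_of_nonneg_left hC' (by linarith : (0 : ℝ) ≤ α 2)
  rw [mul_add] at e2 e3
  linarith

theorem exch3 (α : ℕ → ℝ) (h1 : α 1 < α 0) (h2 : α 2 < α 1)
    (x S P : Fin 3 → ℕ) (u v : Fin 3) (huv : u ≠ v) (hSu : S u = 1) (hPu : P u = 0)
    (hSv : S v = 0) (hPv : P v = 1) (ho : ∀ t, t ≠ u → t ≠ v → S t = P t) :
    (x u < x v → owa α (x + P) < owa α (x + S)) ∧
      (x u = x v → owa α (x + P) = owa α (x + S)) := by
  have o0 := ho 0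
  have o1 := ho 1
  have o2 := ho 2
  have hC : (x + P) 0 + (x + P) 1 + (x + P) 2 = (x + S) 0 + (x + S) 1 + (x + S) 2 := by
    simp only [Pi.add_apply]
    fin_cases u <;> fin_cases v <;> simp_all <;> omega
  constructor
  · intro hx
    have hAB : mA (x + P) ≤ mA (x + S) ∧ mB (x + P) ≤ mB (x + S) ∧
        (mA (x + P) < mA (x + S) ∨ mB (x + P) < mB (x + S)) := by
      simp only [Pi.add_apply, mA, mB]
      clear hC ho h1 h2
      fin_cases u <;> fin_cases v <;>
        first
          | exact absurd rfl huv
          | (simp only [Fin.zero_eta, Fin.mk_one, Fin.reduceFinMk, Fin.isValue, ne_eq,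
              not_true_eq_false, one_ne_zero, zero_ne_one, not_false_eq_true, forall_const,
              IsEmpty.forall_iff, Fin.reduceEq] at hSu hPu hSv hPv hx o0 o1 o2
             omega)
    obtain ⟨hA, hB, hAB⟩ := hAB
    rw [owa_three, owa_three, hC]
    have hA' : (mA (x + P) : ℝ) ≤ mA (x + S) := by exact_mod_cast hA
    have hB' : (mB (x + P) : ℝ) ≤ mB (x + S) := by exact_mod_cast hB
    have e1 := mul_le_mul_of_nonneg_left hB' (by linarith : (0 : ℝ) ≤ α 1 - α 2)
    have e2 := mul_le_mul_of_nonneg_left hA' (by linarith : (0 : ℝ) ≤ α 0 - α 1)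
    rcases hAB with h | h
    · have h' : (mA (x + P) : ℝ) < mA (x + S) := by exact_mod_cast h
      have e3 := mul_lt_mul_of_pos_left h' (by linarith : (0 : ℝ) < α 0 - α 1)
      linarith
    · have h' : (mB (x + P) : ℝ) < mB (x + S) := by exact_mod_cast h
      have e3 := mul_lt_mul_of_pos_left h' (by linarith : (0 : ℝ) < α 1 - α 2)
      linarith
  · intro hx
    have hAB : mA (x + P) = mA (x + S) ∧ mB (x + P) = mB (x + S) := by
      simp only [Pi.add_apply, mA, mB]
      clear hC ho h1 h2
      fin_cases u <;> fin_cases v <;>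
        first
          | exact absurd rfl huv
          | (simp only [Fin.zero_eta, Fin.mk_one, Fin.reduceFinMk, Fin.isValue, ne_eq,
              not_true_eq_false, one_ne_zero, zero_ne_one, not_false_eq_true, forall_const,
              IsEmpty.forall_iff, Fin.reduceEq] at hSu hPu hSv hPv hx o0 o1 o2
             omega)
    rw [owa_three, owa_three, hC, hAB.1, hAB.2]

theorem exists_exch (S P : Fin 3 → ℕ) (hS : ∀ u, S u ≤ 1) (hP : ∀ u, P u ≤ 1)
    (h : S 0 + S 1 + S 2 = P 0 + P 1 + P 2) (hne : S ≠ P) :
    ∃ u v, u ≠ v ∧ S u = 1 ∧ P u = 0 ∧ S v = 0 ∧ P v = 1 ∧ ∀ t, t ≠ u → t ≠ v → S t = P t := by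
  have S0 := hS 0
  have S1 := hS 1
  have S2 := hS 2
  have P0 := hP 0
  have P1 := hP 1
  have P2 := hP 2
  have hne' : ¬(S 0 = P 0 ∧ S 1 = P 1 ∧ S 2 = P 2) := by
    rintro ⟨a, b, c⟩
    exact hne (funext fun t => by fin_cases t <;> assumption)
  have main : ∀ u v t : Fin 3, u ≠ v → (∀ r, r = u ∨ r = v ∨ r = t) → S t = P t →
      S u = 1 → P u = 0 → S v = 0 → P v = 1 →
      ∃ u v, u ≠ v ∧ S u = 1 ∧ P u = 0 ∧ S v = 0 ∧ P v = 1 ∧ ∀ t, t ≠ u → t ≠ v → S t = P t := by
    intro u v t huv hall ht a b c d
    refine ⟨u, v, huv, a, b, c, d, fun r h1 h2 => ?_⟩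
    rcases hall r with h | h | h
    · exact absurd h h1
    · exact absurd h h2
    · rw [h]; exact ht
  by_cases h0 : S 0 = P 0
  · by_cases h1 : S 1 = 1
    · exact main 1 2 0 (by decide) (by decide) h0 h1 (by omega) (by omega) (by omega)
    · exact main 2 1 0 (by decide) (by decide) h0 (by omega) (by omega) (by omega) (by omega)
  · by_cases h1 : S 1 = P 1
    · by_cases h2 : S 0 = 1
      · exact main 0 2 1 (by decide) (by decide) h1 h2 (by omega) (by omega) (by omega)
      · exact main 2 0 1 (by decide) (by decide) h1 (by omega) (by omega) (by omega) (by omega)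
    · by_cases h2 : S 0 = 1
      · exact main 0 1 2 (by decide) (by decide) (by omega) h2 (by omega) (by omega) (by omega)
      · exact main 1 0 2 (by decide) (by decide) (by omega) (by omega) (by omega) (by omega)
          (by omega)

theorem pos_three (α : ℕ → ℝ) (h1 : α 1 < α 0) (h2 : α 2 < α 1) (h3 : α 0 < α 1 + α 2) :
    NeverHarmful 3 α := by
  refine neverHarmful_of_inv α (fun s p => ∃ v, s v = p v + 1 ∧ ∀ u, u ≠ v → s u = p u) ?_ ?_ ?_
  · intro s p v hv hu
    exact ⟨v, hv, hu⟩
  · rintro s p S P ⟨b, hb, hbu⟩ hS hP (h | ⟨A, B, C⟩)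
    · subst h
      exact ⟨b, by simp [hb]; omega, fun u hne => by simp [hbu u hne]⟩
    · rcases lt_trichotomy (S 0 + S 1 + S 2) (P 0 + P 1 + P 2) with h | h | h
      · exact absurd (size3 α h1 h2 h3 s P S hP hS h) (not_lt.2 A)
      · by_cases hne : S = P
        · subst hne
          rcases C with C | C <;> exact absurd C (lt_irrefl _)
        · obtain ⟨u, v, huv, hSu, hPu, hSv, hPv, ho⟩ := exists_exch S P hS hP h hne
          by_cases hvb : v = b
          · subst hvb
            refine ⟨u, ?_, ?_⟩
            · simp only [Pi.add_apply]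
              have := hbu u huv
              omega
            · intro t ht
              simp only [Pi.add_apply]
              by_cases htv : t = v
              · subst htv; omega
              · have e1 := hbu t htv
                have e2 := ho t ht htv
                omega
          · exfalso
            have f1 : s u ≤ s v := by
              by_contra hcon
              have := (exch3 α h1 h2 s P S v u huv.symm hPv hSv hPu hSu
                (fun t a c => (ho t c a).symm)).1 (not_le.1 hcon)
              exact absurd this (not_lt.2 A)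
            have f2 : p v ≤ p u := by
              by_contra hcon
              have := (exch3 α h1 h2 p S P u v huv hSu hPu hSv hPv ho).1 (not_le.1 hcon)
              exact absurd this (not_lt.2 B)
            have f3 : s v = p v := hbu v hvb
            have f4 : p u ≤ s u := by
              by_cases hub : u = b
              · subst hub; omega
              · rw [hbu u hub]
            have g1 := (exch3 α h1 h2 s S P u v huv hSu hPu hSv hPv ho).2 (by omega)
            have g2 := (exch3 α h1 h2 p S P u v huv hSu hPu hSv hPv ho).2 (by omega)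
            rcases C with C | C
            · rw [g1] at C; exact lt_irrefl _ C
            · rw [g2] at C; exact lt_irrefl _ C
      · exact absurd (size3 α h1 h2 h3 p S P hS hP h) (not_lt.2 B)
  · rintro s p v ⟨b, hv, hu⟩
    by_cases h : v = b
    · subst h; omega
    · have := hu v h; omega

theorem pos_all (α : ℕ → ℝ) (h0 : 0 < α 0) (h : Cond n α) : NeverHarmful n α := by
  rcases h with h | ⟨h, h'⟩ | ⟨h, h1, h2, h3⟩
  · exact pos_const α h0 h
  · subst h; exact pos_two α h'
  · subst h; exact pos_three α h1 h2 h3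


/-! ### Elections from lists of two-candidate issues -/

/-- Adding the approvals `X` to the satisfactions `s`. -/
def addB (s : Fin n → ℕ) (X : Fin n → Bool) : Fin n → ℕ := fun v => s v + (X v).toNat

open Classical in
/-- One step of the rule for two candidates with approvals `q.1` and `q.2`. -/
noncomputable def step (α : ℕ → ℝ) (s : Fin n → ℕ) (q : (Fin n → Bool) × (Fin n → Bool)) :
    Fin n → ℕ :=
  if owa α (addB s q.2) ≤ owa α (addB s q.1) then addB s q.1 else addB s q.2

/-- The ballots of a two-candidate issue. -/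
def bal (q : (Fin n → Bool) × (Fin n → Bool)) (v : Fin n) : Finset ℕ :=
  (if q.1 v then {0} else ∅) ∪ (if q.2 v then {1} else ∅)

theorem zero_mem_bal (q : (Fin n → Bool) × (Fin n → Bool)) (v : Fin n) :
    0 ∈ bal q v ↔ q.1 v = true := by
  unfold bal
  cases q.1 v <;> cases q.2 v <;> simp

theorem one_mem_bal (q : (Fin n → Bool) × (Fin n → Bool)) (v : Fin n) :
    1 ∈ bal q v ↔ q.2 v = true := by
  unfold bal
  cases q.1 v <;> cases q.2 v <;> simp

theorem bal_le (q : (Fin n → Bool) × (Fin n → Bool)) (v : Fin n) : ∀ c ∈ bal q v, c ≤ 1 := by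
  intro c hc
  unfold bal at hc
  cases h1 : q.1 v <;> cases h2 : q.2 v <;> simp [h1, h2] at hc <;> omega

/-- The empty issue, used outside the list. -/
def q0 : (Fin n → Bool) × (Fin n → Bool) := (fun _ => false, fun _ => false)

/-- The election with the two-candidate issues in the list `L`. -/
def mkE (L : List ((Fin n → Bool) × (Fin n → Bool))) : Election n where
  k := L.length
  m := fun _ => 1
  ballot := fun v i => bal (L.getD i q0) v
  ballot_le := fun v i c hc => bal_le _ v c hc

open Classical in
/-- The outcome of `mkE L`. -/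
noncomputable def outc (α : ℕ → ℝ) (L : List ((Fin n → Bool) × (Fin n → Bool))) (i : ℕ) : ℕ :=
  if owa α (addB (List.foldl (step α) (fun _ => 0) (L.take i)) (L.getD i q0).2) ≤
    owa α (addB (List.foldl (step α) (fun _ => 0) (L.take i)) (L.getD i q0).1) then 0 else 1

theorem satUpTo_mkE (α : ℕ → ℝ) (L : List ((Fin n → Bool) × (Fin n → Bool))) :
    ∀ i, i ≤ L.length → (mkE L).satUpTo (outc α L) i
      = List.foldl (step α) (fun _ => 0) (L.take i) := by
  intro i
  induction i with
  | zero =>
    intro _
    funext v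
    rw [satUpTo_zero]
    simp
  | succ i ih =>
    intro hi
    have ih' := ih (by omega)
    have hlt : i < L.length := by omega
    have htake : L.take (i + 1) = L.take i ++ [L.getD i q0] := by
      rw [List.take_succ_eq_append_getElem hlt, List.getD_eq_getElem _ _ hlt]
    funext v
    rw [satUpTo_succ, ih', htake, List.foldl_append]
    simp only [List.foldl_cons, List.foldl_nil]
    unfold outc step
    simp only [mkE]
    split_ifs with h1 h2 h2
    · rw [zero_mem_bal] at h2
      unfold addB
      rw [h2]
      rfl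
    · rw [zero_mem_bal, Bool.not_eq_true] at h2
      unfold addB
      rw [h2]
      rfl
    · rw [one_mem_bal] at h2
      unfold addB
      rw [h2]
      rfl
    · rw [one_mem_bal, Bool.not_eq_true] at h2
      unfold addB
      rw [h2]
      rfl

theorem isOutcome_mkE (α : ℕ → ℝ) (L : List ((Fin n → Bool) × (Fin n → Bool))) :
    IsOutcome α (mkE L) (outc α L) := by
  intro i hi
  have hi' : i < L.length := hi
  have s0 : score α (mkE L) (outc α L) i 0
      = owa α (addB (List.foldl (step α) (fun _ => 0) (L.take i)) (L.getD i q0).1) := by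
    unfold score
    congr 1
    funext v
    rw [satUpTo_mkE α L i hi'.le]
    unfold addB
    congr 1
    simp only [mkE, zero_mem_bal]
    cases (L.getD i q0).1 v <;> simp
  have s1 : score α (mkE L) (outc α L) i 1
      = owa α (addB (List.foldl (step α) (fun _ => 0) (L.take i)) (L.getD i q0).2) := by
    unfold score
    congr 1
    funext v
    rw [satUpTo_mkE α L i hi'.le]
    unfold addB
    congr 1
    simp only [mkE, one_mem_bal]
    cases (L.getD i q0).2 v <;> simp
  by_cases h : owa α (addB (List.foldl (step α) (fun _ => 0) (L.take i)) (L.getD i q0).2) ≤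
    owa α (addB (List.foldl (step α) (fun _ => 0) (L.take i)) (L.getD i q0).1)
  · have ho : outc α L i = 0 := by unfold outc; rw [if_pos h]
    refine ⟨by rw [ho]; exact Nat.zero_le _, fun c hc => ?_⟩
    rw [ho]
    have hc' : c ≤ 1 := hc
    rcases Nat.le_one_iff_eq_zero_or_eq_one.1 hc' with h0 | h0 <;> subst h0
    · exact ⟨le_rfl, fun h => absurd h (lt_irrefl _)⟩
    · rw [s0, s1]
      exact ⟨h, fun h => absurd h (by omega)⟩
  · have ho : outc α L i = 1 := by unfold outc; rw [if_neg h]
    refine ⟨by rw [ho]; exact le_rfl, fun c hc => ?_⟩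
    rw [ho]
    have hc' : c ≤ 1 := hc
    rcases Nat.le_one_iff_eq_zero_or_eq_one.1 hc' with h0 | h0 <;> subst h0
    · rw [s0, s1]
      exact ⟨(not_le.1 h).le, fun _ => not_le.1 h⟩
    · exact ⟨le_rfl, fun h => absurd h (lt_irrefl _)⟩

theorem step_empty (α : ℕ → ℝ) (hα : ∀ j < n, 0 ≤ α j) (s : Fin n → ℕ) (X : Fin n → Bool) :
    step α s (X, fun _ => false) = addB s X := by
  unfold step
  rw [if_pos]
  refine owa_mono α hα _ _ fun v => ?_
  simp [addB]

/-- Every vector of satisfactions can be reached. -/
theorem reach (α : ℕ → ℝ) (hα : ∀ j < n, 0 ≤ α j) :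
    ∀ N, ∀ t : Fin n → ℕ, ∑ v, t v = N → ∃ L : List ((Fin n → Bool) × (Fin n → Bool)),
      List.foldl (step α) (fun _ => 0) L = t := by
  intro N
  induction N with
  | zero =>
    intro t ht
    refine ⟨[], ?_⟩
    funext v
    have := (Finset.sum_eq_zero_iff.1 ht) v (Finset.mem_univ v)
    simp [this]
  | succ N ih =>
    intro t ht
    obtain ⟨u, hu⟩ : ∃ u, 0 < t u := by
      by_contra hcon
      push Not at hcon
      have : ∑ v, t v = 0 := Finset.sum_eq_zero fun v _ => Nat.le_zero.1 (hcon v)
      omega
    have hsum : ∑ v, (Function.update t u (t u - 1)) v = N := by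
      have h1 := Finset.add_sum_erase univ t (Finset.mem_univ u)
      have h2 := Finset.add_sum_erase univ (Function.update t u (t u - 1)) (Finset.mem_univ u)
      have h3 : ∑ x ∈ univ.erase u, Function.update t u (t u - 1) x = ∑ x ∈ univ.erase u, t x := by
        refine Finset.sum_congr rfl fun x hx => ?_
        rw [Function.update_of_ne (Finset.ne_of_mem_erase hx)]
      rw [h3, Function.update_self] at h2
      omega
    obtain ⟨L, hL⟩ := ih _ hsum
    refine ⟨L ++ [(fun v => decide (v = u), fun _ => false)], ?_⟩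
    rw [List.foldl_append, hL]
    simp only [List.foldl_cons, List.foldl_nil]
    rw [step_empty α hα]
    funext v
    unfold addB
    by_cases h : v = u
    · subst h; simp; omega
    · simp [h]

theorem sat_eq_succ {α : ℕ → ℝ} {E E' : Election n} {w w' : ℕ → ℕ} {v : Fin n} {i : ℕ}
    (h : FreeRides α E E' w w' v i) : E.sat w' v = E'.sat w' v + 1 := by
  obtain ⟨hi, ⟨hk, hm, hb⟩, hw, hw', hin, hnin, hwi⟩ := h
  have key : ∀ j, j ≤ E.k → E.satUpTo w' j v = E'.satUpTo w' j v + if i < j then 1 else 0 := by
    intro j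
    induction j with
    | zero => intro _; rw [satUpTo_zero, satUpTo_zero]; simp
    | succ j ih =>
      intro hj
      have ih' := ih (by omega)
      rw [satUpTo_succ, satUpTo_succ, ih']
      by_cases hji : j = i
      · subst hji
        rw [hwi, if_pos hin, if_neg hnin, if_neg (lt_irrefl _), if_pos (Nat.lt_succ_self _)]
      · rw [hb v j (by omega) (Or.inr hji)]
        have : (i < j + 1) ↔ (i < j) := by omega
        simp only [this]
        omega
  unfold Election.sat
  rw [key E.k le_rfl, if_pos hi, hk]

theorem harmful_of_run (α : ℕ → ℝ) (hα : ∀ j < n, 0 ≤ α j) (t : Fin n → ℕ) (v : Fin n)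
    (M : List ((Fin n → Bool) × (Fin n → Bool)))
    (h : List.foldl (step α) (addB t fun u => !decide (u = v)) M v + 1
      < List.foldl (step α) (addB t fun _ => true) M v) : HarmfulTwo n α := by
  obtain ⟨L, hL⟩ := reach α hα _ t rfl
  set q : (Fin n → Bool) × (Fin n → Bool) := (fun _ => true, fun _ => false) with hq
  set q' : (Fin n → Bool) × (Fin n → Bool) := (fun u => !decide (u = v), fun _ => false) with hq'
  have hget : (L ++ q :: M).getD L.length q0 = q := by
    rw [List.getD_eq_getElem _ _ (by simp)]
    simp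
  have hget' : (L ++ q' :: M).getD L.length q0 = q' := by
    rw [List.getD_eq_getElem _ _ (by simp)]
    simp
  have hne : ∀ j, j ≠ L.length → (L ++ q' :: M).getD j q0 = (L ++ q :: M).getD j q0 := by
    intro j hj
    rcases lt_or_gt_of_ne hj with h | h
    · rw [List.getD_append _ _ _ _ h, List.getD_append _ _ _ _ h]
    · rw [List.getD_append_right _ _ _ _ h.le, List.getD_append_right _ _ _ _ h.le]
      obtain ⟨r, hr⟩ : ∃ r, j - L.length = r + 1 := ⟨j - L.length - 1, by omega⟩
      rw [hr, List.getD_cons_succ, List.getD_cons_succ]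
  have hw : outc α (L ++ q :: M) L.length = 0 := by
    unfold outc
    rw [hget, if_pos]
    refine owa_mono α hα _ _ fun u => ?_
    simp [addB, hq]
  have hw' : outc α (L ++ q' :: M) L.length = 0 := by
    unfold outc
    rw [hget', if_pos]
    refine owa_mono α hα _ _ fun u => ?_
    simp [addB, hq']
  have hFR : FreeRides α (mkE (L ++ q :: M)) (mkE (L ++ q' :: M)) (outc α (L ++ q :: M))
      (outc α (L ++ q' :: M)) v L.length := by
    refine ⟨by simp [mkE], ⟨by simp [mkE], fun _ _ => rfl, ?_⟩, isOutcome_mkE α _,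
      isOutcome_mkE α _, ?_, ?_, by rw [hw, hw']⟩
    · intro u j _ huj
      simp only [mkE]
      by_cases hj : j = L.length
      · subst hj
        rcases huj with huj | huj
        · rw [hget, hget']
          unfold bal
          simp [hq, hq', huj]
        · exact absurd rfl huj
      · rw [hne j hj]
    · rw [hw]
      simp only [mkE]
      rw [hget, zero_mem_bal]
    · rw [hw]
      simp only [mkE]
      rw [hget', zero_mem_bal]
      simp [hq']
  refine ⟨_, _, _, _, _, _, hFR, ?_, fun _ => rfl⟩
  rw [sat_eq_succ hFR]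
  have e1 : (mkE (L ++ q :: M)).sat (outc α (L ++ q :: M))
      = List.foldl (step α) (addB t fun _ => true) M := by
    have h1 := satUpTo_mkE α (L ++ q :: M) _ le_rfl
    rw [List.take_length, List.foldl_append, hL, List.foldl_cons, hq, step_empty α hα] at h1
    exact h1
  have e2 : (mkE (L ++ q' :: M)).sat (outc α (L ++ q' :: M))
      = List.foldl (step α) (addB t fun u => !decide (u = v)) M := by
    have h1 := satUpTo_mkE α (L ++ q' :: M) _ le_rfl
    rw [List.take_length, List.foldl_append, hL, List.foldl_cons, hq', step_empty α hα] at h1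
    exact h1
  rw [e1, e2]
  exact h


/-! ### Windows of consecutive weights -/

/-- `r` voters with satisfaction `lo`, then the voters of the window, then `h` voters with `hi`. -/
def ext {r L h : ℕ} (lo : ℕ) (z : Fin L → ℕ) (hi : ℕ) : Fin (r + (L + h)) → ℕ :=
  Fin.append (fun _ : Fin r => lo) (Fin.append z (fun _ : Fin h => hi))

/-- Approvals of the voters of the window. -/
def extB {r L h : ℕ} (X : Fin L → Bool) : Fin (r + (L + h)) → Bool :=
  Fin.append (fun _ : Fin r => false) (Fin.append X (fun _ : Fin h => false))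

theorem forall_fin_ext {r L h : ℕ} {p : Fin (r + (L + h)) → Prop}
    (h1 : ∀ i : Fin r, p (Fin.castAdd (L + h) i))
    (h2 : ∀ i : Fin L, p (Fin.natAdd r (Fin.castAdd h i)))
    (h3 : ∀ i : Fin h, p (Fin.natAdd r (Fin.natAdd L i))) : ∀ j, p j := by
  intro j
  induction j using Fin.addCases with
  | left i => exact h1 i
  | right i =>
    induction i using Fin.addCases with
    | left i => exact h2 i
    | right i => exact h3 i

theorem addB_ext {r L h : ℕ} (lo : ℕ) (z : Fin L → ℕ) (hi : ℕ) (X : Fin L → Bool) :
    addB (ext (r := r) (h := h) lo z hi) (extB X) = ext lo (addB z X) hi := by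
  funext j
  revert j
  apply forall_fin_ext
  · intro i; simp [addB, ext, extB]
  · intro i; simp [addB, ext, extB]
  · intro i; simp [addB, ext, extB]

theorem ext_mono {r L h : ℕ} (lo : ℕ) (z : Fin L → ℕ) (hi : ℕ) (hz : Monotone z)
    (hlo : ∀ j, lo ≤ z j) (hhi : ∀ j, z j ≤ hi) (hlh : lo ≤ hi) :
    Monotone (ext (r := r) (h := h) lo z hi) := by
  intro i j
  revert i j
  apply forall_fin_ext
  · intro i
    apply forall_fin_ext
    · intro j _; simp [ext]
    · intro j _; simp [ext, hlo]
    · intro j _; simp [ext, hlh]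
  · intro i
    apply forall_fin_ext
    · intro j hij
      have := i.2
      have := j.2
      simp only [Fin.le_def, Fin.val_natAdd, Fin.val_castAdd] at hij
      omega
    · intro j hij
      simp only [Fin.le_def, Fin.val_natAdd, Fin.val_castAdd] at hij
      simp only [ext, Fin.append_right, Fin.append_left]
      exact hz (by rw [Fin.le_def]; omega)
    · intro j _; simp [ext, hhi]
  · intro i
    apply forall_fin_ext
    · intro j hij
      have := i.2
      have := j.2
      simp only [Fin.le_def, Fin.val_natAdd, Fin.val_castAdd] at hij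
      omega
    · intro j hij
      have := i.2
      have := j.2
      simp only [Fin.le_def, Fin.val_natAdd, Fin.val_castAdd] at hij
      omega
    · intro j _; simp [ext]

theorem owa_ext {r L h : ℕ} (α : ℕ → ℝ) (lo : ℕ) (z : Fin L → ℕ) (hi : ℕ)
    (hlo : ∀ j, lo ≤ z j) (hhi : ∀ j, z j ≤ hi) (hlh : lo ≤ hi) :
    owa α (ext (r := r) (h := h) lo z hi) = (∑ j : Fin r, α j) * lo
      + owa (fun j => α (r + j)) z + (∑ j : Fin h, α (r + (L + j))) * hi := by
  have hp : ∃ σ : Equiv.Perm (Fin (r + (L + h))), ∀ j,
      ext (r := r) (h := h) lo z hi (σ j) = ext (r := r) (h := h) lo (z ∘ Tuple.sort z) hi j := by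
    refine ⟨finSumFinEquiv.permCongr (Equiv.sumCongr (Equiv.refl _)
      (finSumFinEquiv.permCongr (Equiv.sumCongr (Tuple.sort z) (Equiv.refl _)))), ?_⟩
    apply forall_fin_ext
    · intro i; simp [ext, Equiv.permCongr_apply]
    · intro i; simp [ext, Equiv.permCongr_apply]
    · intro i; simp [ext, Equiv.permCongr_apply]
  rw [owa_eval α _ _ hp (ext_mono lo _ hi (Tuple.monotone_sort z) (fun j => hlo _)
    (fun j => hhi _) hlh)]
  rw [Fin.sum_univ_add, Fin.sum_univ_add]
  unfold owa
  simp only [ext, Fin.append_left, Fin.append_right, Fin.val_castAdd, Fin.val_natAdd,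
    Function.comp_apply]
  rw [Finset.sum_mul, Finset.sum_mul, add_assoc]

theorem step_ext {r L h : ℕ} (α : ℕ → ℝ) (lo : ℕ) (z : Fin L → ℕ) (hi : ℕ)
    (X Y : Fin L → Bool)
    (hlo : ∀ j, lo ≤ z j) (hhi : ∀ j, z j + 1 ≤ hi) (hlh : lo ≤ hi) :
    step α (ext (r := r) (h := h) lo z hi) (extB X, extB Y)
      = ext lo (step (fun j => α (r + j)) z (X, Y)) hi := by
  have hb : ∀ W : Fin L → Bool, (∀ j, lo ≤ addB z W j) ∧ ∀ j, addB z W j ≤ hi := by
    intro W
    refine ⟨fun j => (hlo j).trans (Nat.le_add_right _ _), fun j => ?_⟩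
    have := hhi j
    have h2 : (W j).toNat ≤ 1 := Bool.toNat_le _
    unfold addB
    omega
  unfold step
  simp only [addB_ext]
  rw [owa_ext α lo _ hi (hb X).1 (hb X).2 hlh, owa_ext α lo _ hi (hb Y).1 (hb Y).2 hlh]
  have : ((∑ j : Fin r, α j) * (lo : ℝ) + owa (fun j => α (r + j)) (addB z Y)
      + (∑ j : Fin h, α (r + (L + j))) * hi
      ≤ (∑ j : Fin r, α j) * (lo : ℝ) + owa (fun j => α (r + j)) (addB z X)
      + (∑ j : Fin h, α (r + (L + j))) * hi)
      ↔ owa (fun j => α (r + j)) (addB z Y) ≤ owa (fun j => α (r + j)) (addB z X) := by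
    constructor <;> intro h <;> linarith
  simp only [this]
  split_ifs <;> rfl

theorem step_bounds {L : ℕ} (β : ℕ → ℝ) (z : Fin L → ℕ) (q : (Fin L → Bool) × (Fin L → Bool))
    (j : Fin L) : z j ≤ step β z q j ∧ step β z q j ≤ z j + 1 := by
  have hb : ∀ W : Fin L → Bool, z j ≤ addB z W j ∧ addB z W j ≤ z j + 1 := by
    intro W
    have h2 : (W j).toNat ≤ 1 := Bool.toNat_le _
    unfold addB
    omega
  unfold step
  split_ifs
  · exact hb _
  · exact hb _

theorem run_ext {r L h : ℕ} (α : ℕ → ℝ) (lo hi : ℕ) (hlh : lo ≤ hi)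
    (M : List ((Fin L → Bool) × (Fin L → Bool))) : ∀ (z : Fin L → ℕ),
    (∀ j, lo ≤ z j) → (∀ j, z j + M.length ≤ hi) →
    List.foldl (step α) (ext (r := r) (h := h) lo z hi) (M.map fun q => (extB q.1, extB q.2))
      = ext lo (List.foldl (step fun j => α (r + j)) z M) hi := by
  induction M with
  | nil => intro z _ _; rfl
  | cons q M ih =>
    intro z hlo hhi
    rw [List.map_cons, List.foldl_cons, List.foldl_cons, step_ext α lo z hi q.1 q.2 hlo
      (fun j => by have := hhi j; simp only [List.length_cons] at this; omega) hlh]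
    refine ih _ (fun j => (hlo j).trans (step_bounds _ z (q.1, q.2) j).1) fun j => ?_
    have h1 := hhi j
    have h2 := (step_bounds (fun j => α (r + j)) z (q.1, q.2) j).2
    simp only [List.length_cons] at h1
    omega

/-- A run in the window in which voter `v` loses two points by free-riding. -/
def WinHarm (L : ℕ) (β : ℕ → ℝ) : Prop :=
  ∃ (y : Fin L → ℕ) (v : Fin L) (M : List ((Fin L → Bool) × (Fin L → Bool))), (∀ u, 1 ≤ y u) ∧
    List.foldl (step β) (fun u => y u + if u = v then 0 else 1) M v + 1
      < List.foldl (step β) (fun u => y u + 1) M v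

theorem harmful_of_window {n r L h : ℕ} (hn : n = r + (L + h)) (α : ℕ → ℝ)
    (hα : ∀ j < n, 0 ≤ α j) (H : WinHarm L fun j => α (r + j)) : HarmfulTwo n α := by
  subst hn
  obtain ⟨y, v, M, hy, hM⟩ := H
  obtain ⟨B, hB⟩ : ∃ B, ∀ u, y u + M.length ≤ B :=
    ⟨∑ u, y u + M.length, fun u => Nat.add_le_add_right
      (Finset.single_le_sum (f := y) (fun _ _ => Nat.zero_le _) (Finset.mem_univ u)) _⟩
  refine harmful_of_run α hα (ext (r := r) (h := h) 0 y B) (Fin.natAdd r (Fin.castAdd h v))
    (M.map fun q => (extB q.1, extB q.2)) ?_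
  have e1 : addB (ext (r := r) (h := h) 0 y B)
      (fun u => !decide (u = Fin.natAdd r (Fin.castAdd h v)))
      = ext (r := r) (h := h) 1 (fun u => y u + if u = v then 0 else 1) (B + 1) := by
    funext j
    revert j
    apply forall_fin_ext
    · intro i
      have : Fin.castAdd (L + h) i ≠ Fin.natAdd r (Fin.castAdd h v) := by
        intro h; have := congrArg Fin.val h; simp at this; omega
      simp [addB, ext, this]
    · intro i
      by_cases hiv : i = v
      · subst hiv; simp [addB, ext]
      · have : Fin.natAdd r (Fin.castAdd h i) ≠ Fin.natAdd r (Fin.castAdd h v) := by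
          intro h; apply hiv; have := congrArg Fin.val h; simp at this; exact Fin.ext this
        simp [addB, ext, hiv]
    · intro i
      have : Fin.natAdd r (Fin.natAdd L i) ≠ Fin.natAdd r (Fin.castAdd h v) := by
        intro h; have := congrArg Fin.val h; simp at this; omega
      simp [addB, ext, this]
  have e2 : addB (ext (r := r) (h := h) 0 y B) (fun _ => true)
      = ext (r := r) (h := h) 1 (fun u => y u + 1) (B + 1) := by
    funext j
    revert j
    apply forall_fin_ext
    · intro i; simp [addB, ext]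
    · intro i; simp [addB, ext]
    · intro i; simp [addB, ext]
  rw [e1, e2, run_ext α 1 (B + 1) (by omega) M _ ?_ ?_, run_ext α 1 (B + 1) (by omega) M _ ?_ ?_]
  · simpa [ext] using hM
  · intro j; omega
  · intro j; have := hB j; omega
  · intro j; have := hy j; omega
  · intro j; have := hB j; split_ifs <;> omega


/-! ### The harmful runs -/

theorem step_fst {L : ℕ} (β : ℕ → ℝ) (z z' a b : Fin L → ℕ) (X Y : Fin L → Bool)
    (hX : ∃ σ : Equiv.Perm (Fin L), ∀ j, addB z X (σ j) = a j) (ha : Monotone a)
    (hY : ∃ σ : Equiv.Perm (Fin L), ∀ j, addB z Y (σ j) = b j) (hb : Monotone b)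
    (hz : addB z X = z') (h : ∑ j : Fin L, β j * (b j : ℝ) ≤ ∑ j : Fin L, β j * (a j : ℝ)) :
    step β z (X, Y) = z' := by
  unfold step
  rw [if_pos, hz]
  rw [owa_eval β _ a hX ha, owa_eval β _ b hY hb]
  exact h

theorem step_snd {L : ℕ} (β : ℕ → ℝ) (z z' a b : Fin L → ℕ) (X Y : Fin L → Bool)
    (hX : ∃ σ : Equiv.Perm (Fin L), ∀ j, addB z X (σ j) = a j) (ha : Monotone a)
    (hY : ∃ σ : Equiv.Perm (Fin L), ∀ j, addB z Y (σ j) = b j) (hb : Monotone b)
    (hz : addB z Y = z') (h : ∑ j : Fin L, β j * (a j : ℝ) < ∑ j : Fin L, β j * (b j : ℝ)) :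
    step β z (X, Y) = z' := by
  unfold step
  rw [if_neg, hz]
  rw [owa_eval β _ a hX ha, owa_eval β _ b hY hb, not_le]
  exact h

theorem winP0 (β : ℕ → ℝ) (h : β 0 < β 1) : WinHarm 2 β := by
  refine ⟨![1, 1], 0, [(![true, false], ![false, true])], by decide, ?_⟩
  have s0 : (fun u => (![1, 1] : Fin 2 → ℕ) u + 1) = ![2, 2] := by decide
  have p0 : (fun u => (![1, 1] : Fin 2 → ℕ) u + if u = 0 then 0 else 1) = ![1, 2] := by decide
  have s1 : step β ![2, 2] (![true, false], ![false, true]) = ![3, 2] :=
    step_fst β _ _ ![2, 3] ![2, 3] _ _ (by decide) (by decide) (by decide) (by decide) (by decide)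
      (by simp [Fin.sum_univ_two] <;> linarith)
  have p1 : step β ![1, 2] (![true, false], ![false, true]) = ![1, 3] :=
    step_snd β _ _ ![2, 2] ![1, 3] _ _ (by decide) (by decide) (by decide) (by decide) (by decide)
      (by simp [Fin.sum_univ_two] <;> linarith)
  simp only [List.foldl_cons, List.foldl_nil, s0, p0, s1, p1]
  decide

theorem winP1 (β : ℕ → ℝ) (h1 : β 3 < β 1) (h2 : β 2 < β 0) (h3 : β 3 < β 0) : WinHarm 4 β := by
  refine ⟨![1, 1, 1, 1], 0, [(![false, true, false, false], ![true, false, false, false]), (![false, true, true, false], ![true, false, false, true]), (![false, true, false, true], ![true, false, true, false])], by decide, ?_⟩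
  have s0 : (fun u => (![1, 1, 1, 1] : Fin 4 → ℕ) u + 1) = ![2, 2, 2, 2] := by decide
  have p0 : (fun u => (![1, 1, 1, 1] : Fin 4 → ℕ) u + if u = 0 then 0 else 1) = ![1, 2, 2, 2] := by decide
  have s1 : step β ![2, 2, 2, 2] (![false, true, false, false], ![true, false, false, false]) = ![2, 3, 2, 2] :=
    step_fst β _ _ ![2, 2, 2, 3] ![2, 2, 2, 3] _ _ (by decide) (by decide) (by decide) (by decide) (by decide)
      (by simp [Fin.sum_univ_four] <;> linarith)
  have p1 : step β ![1, 2, 2, 2] (![false, true, false, false], ![true, false, false, false]) = ![2, 2, 2, 2] :=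
    step_snd β _ _ ![1, 2, 2, 3] ![2, 2, 2, 2] _ _ (by decide) (by decide) (by decide) (by decide) (by decide)
      (by simp [Fin.sum_univ_four] <;> linarith)
  have s2 : step β ![2, 3, 2, 2] (![false, true, true, false], ![true, false, false, true]) = ![3, 3, 2, 3] :=
    step_snd β _ _ ![2, 2, 3, 4] ![2, 3, 3, 3] _ _ (by decide) (by decide) (by decide) (by decide) (by decide)
      (by simp [Fin.sum_univ_four] <;> linarith)
  have p2 : step β ![2, 2, 2, 2] (![false, true, true, false], ![true, false, false, true]) = ![2, 3, 3, 2] :=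
    step_fst β _ _ ![2, 2, 3, 3] ![2, 2, 3, 3] _ _ (by decide) (by decide) (by decide) (by decide) (by decide)
      (by simp [Fin.sum_univ_four] <;> linarith)
  have s3 : step β ![3, 3, 2, 3] (![false, true, false, true], ![true, false, true, false]) = ![4, 3, 3, 3] :=
    step_snd β _ _ ![2, 3, 4, 4] ![3, 3, 3, 4] _ _ (by decide) (by decide) (by decide) (by decide) (by decide)
      (by simp [Fin.sum_univ_four] <;> linarith)
  have p3 : step β ![2, 3, 3, 2] (![false, true, false, true], ![true, false, true, false]) = ![2, 4, 3, 3] :=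
    step_fst β _ _ ![2, 3, 3, 4] ![2, 3, 3, 4] _ _ (by decide) (by decide) (by decide) (by decide) (by decide)
      (by simp [Fin.sum_univ_four] <;> linarith)
  simp only [List.foldl_cons, List.foldl_nil, s0, p0, s1, p1, s2, p2, s3, p3]
  decide

theorem winP2 (β : ℕ → ℝ) (h1 : β 1 < β 0) (h2 : β 2 = β 1) (h3 : β 3 = β 1) : WinHarm 4 β := by
  refine ⟨![1, 1, 1, 2], 0, [(![false, true, true, false], ![true, false, false, true]), (![false, true, false, true], ![true, false, true, false]), (![false, true, true, true], ![true, true, false, true])], by decide, ?_⟩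
  have s0 : (fun u => (![1, 1, 1, 2] : Fin 4 → ℕ) u + 1) = ![2, 2, 2, 3] := by decide
  have p0 : (fun u => (![1, 1, 1, 2] : Fin 4 → ℕ) u + if u = 0 then 0 else 1) = ![1, 2, 2, 3] := by decide
  have s1 : step β ![2, 2, 2, 3] (![false, true, true, false], ![true, false, false, true]) = ![2, 3, 3, 3] :=
    step_fst β _ _ ![2, 3, 3, 3] ![2, 2, 3, 4] _ _ (by decide) (by decide) (by decide) (by decide) (by decide)
      (by simp [Fin.sum_univ_four] <;> linarith)
  have p1 : step β ![1, 2, 2, 3] (![false, true, true, false], ![true, false, false, true]) = ![2, 2, 2, 4] :=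
    step_snd β _ _ ![1, 3, 3, 3] ![2, 2, 2, 4] _ _ (by decide) (by decide) (by decide) (by decide) (by decide)
      (by simp [Fin.sum_univ_four] <;> linarith)
  have s2 : step β ![2, 3, 3, 3] (![false, true, false, true], ![true, false, true, false]) = ![3, 3, 4, 3] :=
    step_snd β _ _ ![2, 3, 4, 4] ![3, 3, 3, 4] _ _ (by decide) (by decide) (by decide) (by decide) (by decide)
      (by simp [Fin.sum_univ_four] <;> linarith)
  have p2 : step β ![2, 2, 2, 4] (![false, true, false, true], ![true, false, true, false]) = ![2, 3, 2, 5] :=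
    step_fst β _ _ ![2, 2, 3, 5] ![2, 3, 3, 4] _ _ (by decide) (by decide) (by decide) (by decide) (by decide)
      (by simp [Fin.sum_univ_four] <;> linarith)
  have s3 : step β ![3, 3, 4, 3] (![false, true, true, true], ![true, true, false, true]) = ![4, 4, 4, 4] :=
    step_snd β _ _ ![3, 4, 4, 5] ![4, 4, 4, 4] _ _ (by decide) (by decide) (by decide) (by decide) (by decide)
      (by simp [Fin.sum_univ_four] <;> linarith)
  have p3 : step β ![2, 3, 2, 5] (![false, true, true, true], ![true, true, false, true]) = ![2, 4, 3, 6] :=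
    step_fst β _ _ ![2, 3, 4, 6] ![2, 3, 4, 6] _ _ (by decide) (by decide) (by decide) (by decide) (by decide)
      (by simp [Fin.sum_univ_four] <;> linarith)
  simp only [List.foldl_cons, List.foldl_nil, s0, p0, s1, p1, s2, p2, s3, p3]
  decide

theorem winP3 (β : ℕ → ℝ) (h0 : 0 ≤ β 3) (h1 : β 1 = β 0) (h2 : β 2 = β 0) (h3 : β 3 < β 0) : WinHarm 4 β := by
  refine ⟨![2, 1, 1, 2], 0, [(![true, false, false, true], ![true, true, false, false]), (![false, true, false, false], ![false, false, false, false]), (![true, true, false, false], ![false, false, true, true])], by decide, ?_⟩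
  have s0 : (fun u => (![2, 1, 1, 2] : Fin 4 → ℕ) u + 1) = ![3, 2, 2, 3] := by decide
  have p0 : (fun u => (![2, 1, 1, 2] : Fin 4 → ℕ) u + if u = 0 then 0 else 1) = ![2, 2, 2, 3] := by decide
  have s1 : step β ![3, 2, 2, 3] (![true, false, false, true], ![true, true, false, false]) = ![4, 2, 2, 4] :=
    step_fst β _ _ ![2, 2, 4, 4] ![2, 3, 3, 4] _ _ (by decide) (by decide) (by decide) (by decide) (by decide)
      (by simp [Fin.sum_univ_four] <;> linarith)
  have p1 : step β ![2, 2, 2, 3] (![true, false, false, true], ![true, true, false, false]) = ![3, 3, 2, 3] :=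
    step_snd β _ _ ![2, 2, 3, 4] ![2, 3, 3, 3] _ _ (by decide) (by decide) (by decide) (by decide) (by decide)
      (by simp [Fin.sum_univ_four] <;> linarith)
  have s2 : step β ![4, 2, 2, 4] (![false, true, false, false], ![false, false, false, false]) = ![4, 3, 2, 4] :=
    step_fst β _ _ ![2, 3, 4, 4] ![2, 2, 4, 4] _ _ (by decide) (by decide) (by decide) (by decide) (by decide)
      (by simp [Fin.sum_univ_four] <;> linarith)
  have p2 : step β ![3, 3, 2, 3] (![false, true, false, false], ![false, false, false, false]) = ![3, 4, 2, 3] :=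
    step_fst β _ _ ![2, 3, 3, 4] ![2, 3, 3, 3] _ _ (by decide) (by decide) (by decide) (by decide) (by decide)
      (by simp [Fin.sum_univ_four] <;> linarith)
  have s3 : step β ![4, 3, 2, 4] (![true, true, false, false], ![false, false, true, true]) = ![5, 4, 2, 4] :=
    step_fst β _ _ ![2, 4, 4, 5] ![3, 3, 4, 5] _ _ (by decide) (by decide) (by decide) (by decide) (by decide)
      (by simp [Fin.sum_univ_four] <;> linarith)
  have p3 : step β ![3, 4, 2, 3] (![true, true, false, false], ![false, false, true, true]) = ![3, 4, 3, 4] :=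
    step_snd β _ _ ![2, 3, 4, 5] ![3, 3, 4, 4] _ _ (by decide) (by decide) (by decide) (by decide) (by decide)
      (by simp [Fin.sum_univ_four] <;> linarith)
  simp only [List.foldl_cons, List.foldl_nil, s0, p0, s1, p1, s2, p2, s3, p3]
  decide

theorem winT1 (β : ℕ → ℝ) (h0 : 0 ≤ β 2) (h1 : β 1 = β 0) (h2 : β 2 < β 0) : WinHarm 3 β := by
  refine ⟨![2, 1, 2], 0, [(![true, false, true], ![true, true, false]), (![false, true, true], ![false, false, false]), (![false, true, true], ![true, true, false])], by decide, ?_⟩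
  have s0 : (fun u => (![2, 1, 2] : Fin 3 → ℕ) u + 1) = ![3, 2, 3] := by decide
  have p0 : (fun u => (![2, 1, 2] : Fin 3 → ℕ) u + if u = 0 then 0 else 1) = ![2, 2, 3] := by decide
  have s1 : step β ![3, 2, 3] (![true, false, true], ![true, true, false]) = ![4, 2, 4] :=
    step_fst β _ _ ![2, 4, 4] ![3, 3, 4] _ _ (by decide) (by decide) (by decide) (by decide) (by decide)
      (by simp [Fin.sum_univ_three] <;> linarith)
  have p1 : step β ![2, 2, 3] (![true, false, true], ![true, true, false]) = ![3, 3, 3] :=
    step_snd β _ _ ![2, 3, 4] ![3, 3, 3] _ _ (by decide) (by decide) (by decide) (by decide) (by decide)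
      (by simp [Fin.sum_univ_three] <;> linarith)
  have s2 : step β ![4, 2, 4] (![false, true, true], ![false, false, false]) = ![4, 3, 5] :=
    step_fst β _ _ ![3, 4, 5] ![2, 4, 4] _ _ (by decide) (by decide) (by decide) (by decide) (by decide)
      (by simp [Fin.sum_univ_three] <;> linarith)
  have p2 : step β ![3, 3, 3] (![false, true, true], ![false, false, false]) = ![3, 4, 4] :=
    step_fst β _ _ ![3, 4, 4] ![3, 3, 3] _ _ (by decide) (by decide) (by decide) (by decide) (by decide)
      (by simp [Fin.sum_univ_three] <;> linarith)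
  have s3 : step β ![4, 3, 5] (![false, true, true], ![true, true, false]) = ![5, 4, 5] :=
    step_snd β _ _ ![4, 4, 6] ![4, 5, 5] _ _ (by decide) (by decide) (by decide) (by decide) (by decide)
      (by simp [Fin.sum_univ_three] <;> linarith)
  have p3 : step β ![3, 4, 4] (![false, true, true], ![true, true, false]) = ![3, 5, 5] :=
    step_fst β _ _ ![3, 5, 5] ![4, 4, 5] _ _ (by decide) (by decide) (by decide) (by decide) (by decide)
      (by simp [Fin.sum_univ_three] <;> linarith)
  simp only [List.foldl_cons, List.foldl_nil, s0, p0, s1, p1, s2, p2, s3, p3]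
  decide

theorem winT2 (β : ℕ → ℝ) (h0 : 0 ≤ β 2) (h1 : β 1 < β 0) (h2 : β 2 = β 1) : WinHarm 3 β := by
  refine ⟨![1, 1, 2], 0, [(![true, false, true], ![true, true, false]), (![true, false, false], ![false, false, false]), (![true, false, false], ![false, true, false])], by decide, ?_⟩
  have s0 : (fun u => (![1, 1, 2] : Fin 3 → ℕ) u + 1) = ![2, 2, 3] := by decide
  have p0 : (fun u => (![1, 1, 2] : Fin 3 → ℕ) u + if u = 0 then 0 else 1) = ![1, 2, 3] := by decide
  have s1 : step β ![2, 2, 3] (![true, false, true], ![true, true, false]) = ![3, 3, 3] :=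
    step_snd β _ _ ![2, 3, 4] ![3, 3, 3] _ _ (by decide) (by decide) (by decide) (by decide) (by decide)
      (by simp [Fin.sum_univ_three] <;> linarith)
  have p1 : step β ![1, 2, 3] (![true, false, true], ![true, true, false]) = ![2, 2, 4] :=
    step_fst β _ _ ![2, 2, 4] ![2, 3, 3] _ _ (by decide) (by decide) (by decide) (by decide) (by decide)
      (by simp [Fin.sum_univ_three] <;> linarith)
  have s2 : step β ![3, 3, 3] (![true, false, false], ![false, false, false]) = ![4, 3, 3] :=
    step_fst β _ _ ![3, 3, 4] ![3, 3, 3] _ _ (by decide) (by decide) (by decide) (by decide) (by decide)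
      (by simp [Fin.sum_univ_three] <;> linarith)
  have p2 : step β ![2, 2, 4] (![true, false, false], ![false, false, false]) = ![3, 2, 4] :=
    step_fst β _ _ ![2, 3, 4] ![2, 2, 4] _ _ (by decide) (by decide) (by decide) (by decide) (by decide)
      (by simp [Fin.sum_univ_three] <;> linarith)
  have s3 : step β ![4, 3, 3] (![true, false, false], ![false, true, false]) = ![5, 3, 3] :=
    step_fst β _ _ ![3, 3, 5] ![3, 4, 4] _ _ (by decide) (by decide) (by decide) (by decide) (by decide)
      (by simp [Fin.sum_univ_three] <;> linarith)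
  have p3 : step β ![3, 2, 4] (![true, false, false], ![false, true, false]) = ![3, 3, 4] :=
    step_snd β _ _ ![2, 4, 4] ![3, 3, 4] _ _ (by decide) (by decide) (by decide) (by decide) (by decide)
      (by simp [Fin.sum_univ_three] <;> linarith)
  simp only [List.foldl_cons, List.foldl_nil, s0, p0, s1, p1, s2, p2, s3, p3]
  decide

theorem winT3 (β : ℕ → ℝ) (h0 : 0 ≤ β 2) (h1 : β 2 < β 1) (h2 : β 1 + β 2 < β 0) : WinHarm 3 β := by
  refine ⟨![1, 1, 1], 0, [(![false, true, true], ![true, false, false]), (![true, false, true], ![false, false, false]), (![true, false, true], ![false, true, false]), (![false, false, true], ![true, false, false])], by decide, ?_⟩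
  have s0 : (fun u => (![1, 1, 1] : Fin 3 → ℕ) u + 1) = ![2, 2, 2] := by decide
  have p0 : (fun u => (![1, 1, 1] : Fin 3 → ℕ) u + if u = 0 then 0 else 1) = ![1, 2, 2] := by decide
  have s1 : step β ![2, 2, 2] (![false, true, true], ![true, false, false]) = ![2, 3, 3] :=
    step_fst β _ _ ![2, 3, 3] ![2, 2, 3] _ _ (by decide) (by decide) (by decide) (by decide) (by decide)
      (by simp [Fin.sum_univ_three] <;> linarith)
  have p1 : step β ![1, 2, 2] (![false, true, true], ![true, false, false]) = ![2, 2, 2] :=
    step_snd β _ _ ![1, 3, 3] ![2, 2, 2] _ _ (by decide) (by decide) (by decide) (by decide) (by decide)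
      (by simp [Fin.sum_univ_three] <;> linarith)
  have s2 : step β ![2, 3, 3] (![true, false, true], ![false, false, false]) = ![3, 3, 4] :=
    step_fst β _ _ ![3, 3, 4] ![2, 3, 3] _ _ (by decide) (by decide) (by decide) (by decide) (by decide)
      (by simp [Fin.sum_univ_three] <;> linarith)
  have p2 : step β ![2, 2, 2] (![true, false, true], ![false, false, false]) = ![3, 2, 3] :=
    step_fst β _ _ ![2, 3, 3] ![2, 2, 2] _ _ (by decide) (by decide) (by decide) (by decide) (by decide)
      (by simp [Fin.sum_univ_three] <;> linarith)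
  have s3 : step β ![3, 3, 4] (![true, false, true], ![false, true, false]) = ![4, 3, 5] :=
    step_fst β _ _ ![3, 4, 5] ![3, 4, 4] _ _ (by decide) (by decide) (by decide) (by decide) (by decide)
      (by simp [Fin.sum_univ_three] <;> linarith)
  have p3 : step β ![3, 2, 3] (![true, false, true], ![false, true, false]) = ![3, 3, 3] :=
    step_snd β _ _ ![2, 4, 4] ![3, 3, 3] _ _ (by decide) (by decide) (by decide) (by decide) (by decide)
      (by simp [Fin.sum_univ_three] <;> linarith)
  have s4 : step β ![4, 3, 5] (![false, false, true], ![true, false, false]) = ![5, 3, 5] :=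
    step_snd β _ _ ![3, 4, 6] ![3, 5, 5] _ _ (by decide) (by decide) (by decide) (by decide) (by decide)
      (by simp [Fin.sum_univ_three] <;> linarith)
  have p4 : step β ![3, 3, 3] (![false, false, true], ![true, false, false]) = ![3, 3, 4] :=
    step_fst β _ _ ![3, 3, 4] ![3, 3, 4] _ _ (by decide) (by decide) (by decide) (by decide) (by decide)
      (by simp [Fin.sum_univ_three] <;> linarith)
  simp only [List.foldl_cons, List.foldl_nil, s0, p0, s1, p1, s2, p2, s3, p3, s4, p4]
  decide

theorem winT4 (β : ℕ → ℝ) (h0 : 0 < β 2) (h1 : β 2 < β 1) (h2 : β 1 + β 2 = β 0) : WinHarm 3 β := by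
  refine ⟨![1, 1, 1], 0, [(![true, false, false], ![false, true, true]), (![true, false, false], ![false, false, false]), (![true, false, false], ![false, false, true]), (![false, true, false], ![true, false, true])], by decide, ?_⟩
  have s0 : (fun u => (![1, 1, 1] : Fin 3 → ℕ) u + 1) = ![2, 2, 2] := by decide
  have p0 : (fun u => (![1, 1, 1] : Fin 3 → ℕ) u + if u = 0 then 0 else 1) = ![1, 2, 2] := by decide
  have s1 : step β ![2, 2, 2] (![true, false, false], ![false, true, true]) = ![2, 3, 3] :=
    step_snd β _ _ ![2, 2, 3] ![2, 3, 3] _ _ (by decide) (by decide) (by decide) (by decide) (by decide)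
      (by simp [Fin.sum_univ_three] <;> linarith)
  have p1 : step β ![1, 2, 2] (![true, false, false], ![false, true, true]) = ![2, 2, 2] :=
    step_fst β _ _ ![2, 2, 2] ![1, 3, 3] _ _ (by decide) (by decide) (by decide) (by decide) (by decide)
      (by simp [Fin.sum_univ_three] <;> linarith)
  have s2 : step β ![2, 3, 3] (![true, false, false], ![false, false, false]) = ![3, 3, 3] :=
    step_fst β _ _ ![3, 3, 3] ![2, 3, 3] _ _ (by decide) (by decide) (by decide) (by decide) (by decide)
      (by simp [Fin.sum_univ_three] <;> linarith)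
  have p2 : step β ![2, 2, 2] (![true, false, false], ![false, false, false]) = ![3, 2, 2] :=
    step_fst β _ _ ![2, 2, 3] ![2, 2, 2] _ _ (by decide) (by decide) (by decide) (by decide) (by decide)
      (by simp [Fin.sum_univ_three] <;> linarith)
  have s3 : step β ![3, 3, 3] (![true, false, false], ![false, false, true]) = ![4, 3, 3] :=
    step_fst β _ _ ![3, 3, 4] ![3, 3, 4] _ _ (by decide) (by decide) (by decide) (by decide) (by decide)
      (by simp [Fin.sum_univ_three] <;> linarith)
  have p3 : step β ![3, 2, 2] (![true, false, false], ![false, false, true]) = ![3, 2, 3] :=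
    step_snd β _ _ ![2, 2, 4] ![2, 3, 3] _ _ (by decide) (by decide) (by decide) (by decide) (by decide)
      (by simp [Fin.sum_univ_three] <;> linarith)
  have s4 : step β ![4, 3, 3] (![false, true, false], ![true, false, true]) = ![5, 3, 4] :=
    step_snd β _ _ ![3, 4, 4] ![3, 4, 5] _ _ (by decide) (by decide) (by decide) (by decide) (by decide)
      (by simp [Fin.sum_univ_three] <;> linarith)
  have p4 : step β ![3, 2, 3] (![false, true, false], ![true, false, true]) = ![3, 3, 3] :=
    step_fst β _ _ ![3, 3, 3] ![2, 4, 4] _ _ (by decide) (by decide) (by decide) (by decide) (by decide)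
      (by simp [Fin.sum_univ_three] <;> linarith)
  simp only [List.foldl_cons, List.foldl_nil, s0, p0, s1, p1, s2, p2, s3, p3, s4, p4]
  decide

/-! ### The classification -/

theorem neg_all (α : ℕ → ℝ) (hn : 0 < n) (hα : ∀ j < n, 0 ≤ α j) (h : ¬ Cond n α) :
    HarmfulTwo n α := by
  by_cases hinc : ∃ j, j + 1 < n ∧ α j < α (j + 1)
  · obtain ⟨j, hj, hlt⟩ := hinc
    exact harmful_of_window (r := j) (L := 2) (h := n - j - 2) (by omega) α hα
      (winP0 (fun i => α (j + i)) hlt)
  · push Not at hinc
    have hanti : ∀ j, ∀ i, i ≤ j → j < n → α j ≤ α i := by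
      intro j
      induction j with
      | zero =>
        intro i hi _
        rw [Nat.le_zero.1 hi]
      | succ j ih =>
        intro i hi hj
        rcases Nat.lt_succ_iff_lt_or_eq.1 (Nat.lt_succ_of_le hi) with h1 | h1
        · exact (hinc j hj).trans (ih i (by omega) (by omega))
        · rw [h1]
    have hdrop : ∃ j, j + 1 < n ∧ α (j + 1) < α j := by
      by_contra hcon
      push Not at hcon
      apply h
      left
      intro j
      induction j with
      | zero => intro _; rfl
      | succ j ih =>
        intro hj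
        rw [← ih (by omega)]
        exact le_antisymm (hinc j hj) (hcon j hj)
    obtain ⟨j, hj, hlt⟩ := hdrop
    rcases Nat.lt_or_ge n 4 with hn4 | hn4
    · -- `n = 2` or `n = 3`
      have hn23 : n = 2 ∨ n = 3 := by omega
      rcases hn23 with hn2 | hn3
      · exfalso
        apply h
        right; left
        refine ⟨hn2, hanti 1 0 (by omega) (by omega)⟩
      · subst hn3
        have a01 := hanti 1 0 (by omega) (by omega)
        have a12 := hanti 2 1 (by omega) (by omega)
        have a2 := hα 2 (by omega)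
        have hwin : WinHarm 3 (fun i => α (0 + i)) → HarmfulTwo 3 α := fun H =>
          harmful_of_window (r := 0) (L := 3) (h := 0) rfl α hα H
        have hfun : (fun i => α (0 + i)) = α := by funext i; rw [Nat.zero_add]
        rw [hfun] at hwin
        apply hwin
        rcases a01.lt_or_eq with b01 | b01
        · rcases a12.lt_or_eq with b12 | b12
          · rcases lt_trichotomy (α 1 + α 2) (α 0) with c | c | c
            · exact winT3 α a2 b12 c
            · exact winT4 α (by linarith) b12 c
            · exact absurd (Or.inr (Or.inr ⟨rfl, b01, b12, c⟩)) h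
          · exact winT2 α a2 b01 b12
        · rcases a12.lt_or_eq with b12 | b12
          · exact winT1 α a2 b01 (by linarith)
          · exfalso
            have : j = 0 ∨ j = 1 := by omega
            rcases this with h0 | h0 <;> subst h0 <;> simp at hlt <;> linarith
    · -- `4 ≤ n`
      obtain ⟨r, hr1, hr2, hr3⟩ : ∃ r, r ≤ j ∧ j + 1 ≤ r + 3 ∧ r + 4 ≤ n :=
        ⟨min j (n - 4), by omega, by omega, by omega⟩
      refine harmful_of_window (r := r) (L := 4) (h := n - r - 4) (by omega) α hα ?_
      have a01 := hanti (r + 1) r (by omega) (by omega)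
      have a12 := hanti (r + 2) (r + 1) (by omega) (by omega)
      have a23 := hanti (r + 3) (r + 2) (by omega) (by omega)
      have a3 := hα (r + 3) (by omega)
      have a03 : α (r + 3) < α r := by
        have c1 := hanti (r + 3) (j + 1) (by omega) (by omega)
        have c2 := hanti j r (by omega) (by omega)
        linarith
      by_cases hbd : α (r + 3) < α (r + 1)
      · by_cases hac : α (r + 2) < α r
        · exact winP1 (fun i => α (r + i)) hbd hac a03
        · have e2 : α (r + 2) = α r := le_antisymm (by linarith) (not_lt.1 hac)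
          exact winP3 (fun i => α (r + i)) a3 (by simp only [Nat.add_zero]; linarith)
            (by simp only [Nat.add_zero]; linarith) (by simpa using a03)
      · have e1 : α (r + 1) = α (r + 3) := le_antisymm (not_lt.1 hbd) (by linarith)
        exact winP2 (fun i => α (r + i)) (by simp only [Nat.add_zero]; linarith)
          (by linarith) (by linarith)

/-- Free-riding is never harmful for `n ≥ 1` voters under the sequential OWA rule with weights
`α 0 > 0`, `α 1, …, α (n - 1) ≥ 0` if and only if the weights are all equal, or `n = 2` and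
`α 1 ≤ α 0`, or `n = 3` and `α 0 > α 1 > α 2` and `α 1 + α 2 > α 0`. If the condition fails there
is a harmful election with two candidates for each issue. In particular there is a sequential OWA
rule with non-constant weights (for `n = 2` and for `n = 3`) under which free-riding is never
harmful. -/
theorem result :
    (∀ (n : ℕ) (α : ℕ → ℝ), 0 < n → 0 < α 0 → (∀ j < n, 0 ≤ α j) →
      (NeverHarmful n α ↔ Cond n α) ∧ (¬ Cond n α → HarmfulTwo n α)) ∧
    ∃ α : ℕ → ℕ → ℝ, (∀ n, 0 < α n 0 ∧ ∀ j, 0 ≤ α n j) ∧ α 2 1 < α 2 0 ∧ α 3 1 < α 3 0 ∧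
      ∀ n, NeverHarmful n (α n) := by
  constructor
  · intro n α hn h0 hα
    refine ⟨⟨fun h => ?_, pos_all α h0⟩, neg_all α hn hα⟩
    by_contra hcon
    obtain ⟨E, E', w, w', v, i, hFR, hlt, -⟩ := neg_all α hn hα hcon
    exact absurd (h E E' w w' v i hFR) (not_le.2 hlt)
  · refine ⟨fun n j => if n = 2 ∨ n = 3 then (if j = 0 then 4 else if j = 1 then 3 else 2) else 1,
      fun n => ⟨?_, fun j => ?_⟩, ?_, ?_, fun n => ?_⟩
    · dsimp only; split_ifs <;> norm_num
    · dsimp only; split_ifs <;> norm_num
    · norm_num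
    · norm_num
    · apply pos_all
      · dsimp only; split_ifs <;> norm_num
      · by_cases h2 : n = 2
        · right; left
          exact ⟨h2, by subst h2; norm_num⟩
        · by_cases h3 : n = 3
          · right; right
            subst h3
            norm_num
          · left
            intro j _
            simp [h2, h3]

end Pool.Agent.Results.MP_57045c_lc.FreeRidingOWA
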